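import Pool.Agent.Q276.KZ.Stm

set_option autoImplicit false

namespace Pool.Agent.Q75.KZ

open MeasureTheory Filter Finset
open Pool.Agent.Q276.KZ Pool.Agent.Q276.CD

lemma exp31 : Real.exp (31 / 10) ≤ 25 := by
  have h1 : Real.exp (31 / 10) = Real.exp 1 ^ 3 * Real.exp (1 / 10) := by
    rw [← Real.exp_nat_mul, ← Real.exp_add]; norm_num
  have h2 : Real.exp 1 < 2.7182818286 := Real.exp_one_lt_d9
  have h3 : Real.exp (1 / 10 : ℝ) ≤ 10 / 9 := by
    have h := Real.one_sub_le_exp_neg (1 / 10)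
    have h4 : Real.exp (-(1 / 10 : ℝ)) * Real.exp (1 / 10) = 1 := by
      rw [← Real.exp_add]; simp
    have h5 : 0 < Real.exp (1 / 10 : ℝ) := Real.exp_pos _
    nlinarith
  have h6 : Real.exp 1 ^ 3 ≤ 2.7182818286 ^ 3 :=
    pow_le_pow_left₀ (Real.exp_pos 1).le h2.le 3
  rw [h1]
  calc Real.exp 1 ^ 3 * Real.exp (1 / 10) ≤ 2.7182818286 ^ 3 * (10 / 9) :=
        mul_le_mul h6 h3 (Real.exp_pos _).le (by positivity)
    _ ≤ 25 := by norm_num

lemma exp21 : Real.exp (21 / 10) ≤ 10 := by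
  have h1 : Real.exp (21 / 10) * Real.exp 1 = Real.exp (31 / 10) := by
    rw [← Real.exp_add]; norm_num
  have h2 := exp31
  have h3 : (2.7182818283 : ℝ) < Real.exp 1 := Real.exp_one_gt_d9
  have h4 : 0 < Real.exp (21 / 10 : ℝ) := Real.exp_pos _
  nlinarith

lemma norm_exp_ge {K : ℕ} {z : ℂ} (hz : ‖z‖ ≤ (K : ℝ) / 10) :
    Real.exp (-((K : ℝ) / 10)) ≤ ‖Complex.exp z‖ := by
  rw [Complex.norm_exp]
  apply Real.exp_le_exp.mpr
  have := Complex.abs_re_le_norm z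
  have := neg_abs_le z.re
  linarith

theorem t_EX : P_EX := by
  intro K z hz
  rcases Nat.eq_zero_or_pos K with rfl | hK
  · have h0 : z = 0 := by
      have : ‖z‖ ≤ 0 := by simpa using hz
      exact norm_le_zero_iff.mp this
    subst h0
    simp [ex]
  have hK1 : (1 : ℝ) ≤ K := by exact_mod_cast hK
  have h1 : ‖z‖ / ((K + 1).succ : ℕ) ≤ 1 / 2 := by
    rw [div_le_iff₀ (by positivity)]
    push_cast
    linarith
  have h2 := Complex.exp_bound' h1
  have h3 : ‖ex K z - Complex.exp z‖ ≤ ‖z‖ ^ (K + 1) / ((K + 1).factorial : ℝ) * 2 := by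
    rw [norm_sub_rev]
    exact h2
  refine h3.trans ?_
  have h4 : ‖z‖ ^ (K + 1) / ((K + 1).factorial : ℝ) ≤ (1 / 10) ^ (K + 1) * Real.exp (K + 1) := by
    have h5 : ((K : ℝ) + 1) ^ (K + 1) / ((K + 1).factorial : ℝ) ≤ Real.exp (K + 1) :=
      Real.pow_div_factorial_le_exp _ (by positivity) _
    have h6 : ‖z‖ ^ (K + 1) ≤ (((K : ℝ) + 1) / 10) ^ (K + 1) :=
      pow_le_pow_left₀ (norm_nonneg _) (by linarith) _
    calc ‖z‖ ^ (K + 1) / ((K + 1).factorial : ℝ)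
        ≤ (((K : ℝ) + 1) / 10) ^ (K + 1) / ((K + 1).factorial : ℝ) := by gcongr
      _ = (1 / 10) ^ (K + 1) * (((K : ℝ) + 1) ^ (K + 1) / ((K + 1).factorial : ℝ)) := by
          rw [div_pow, one_div, inv_pow]; ring
      _ ≤ _ := by gcongr
  have h7 := norm_exp_ge hz
  have h8 : (1 / 10) ^ (K + 1) * Real.exp (K + 1) * 2 ≤
      Real.exp (-(K : ℝ)) / 2 * Real.exp (-((K : ℝ) / 10)) := by
    have e1 : Real.exp ((K : ℝ) + 1) = Real.exp 1 * Real.exp K := by
      rw [← Real.exp_add]; ring_nf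
    have e2 : Real.exp (-(K : ℝ)) / 2 * Real.exp (-((K : ℝ) / 10)) =
        Real.exp (-(11 / 10 * K)) / 2 := by
      rw [div_mul_eq_mul_div, ← Real.exp_add]; ring_nf
    rw [e2]
    have e3 : (1 / 10) ^ (K + 1) * Real.exp (K + 1) * 2 * Real.exp (11 / 10 * K) ≤ 1 / 2 := by
      have e4 : Real.exp K * Real.exp (11 / 10 * K) = Real.exp (21 / 10) ^ K := by
        rw [← Real.exp_add, ← Real.exp_nat_mul]; ring_nf
      have e5 : (1 / 10 : ℝ) ^ (K + 1) * Real.exp (K + 1) * 2 * Real.exp (11 / 10 * K) =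
          (Real.exp 1 / 5) * (Real.exp (21 / 10) / 10) ^ K := by
        rw [e1, pow_succ, div_pow (Real.exp (21 / 10)) 10 K, ← e4, one_div, inv_pow]; ring
      rw [e5]
      have e6 : (Real.exp (21 / 10) / 10) ^ K ≤ Real.exp (21 / 10) / 10 := by
        have : (Real.exp (21 / 10) / 10) ^ K ≤ (Real.exp (21 / 10) / 10) ^ 1 :=
          pow_le_pow_of_le_one (by positivity) (by have := exp21; linarith) hK
        simpa using this
      calc (Real.exp 1 / 5) * (Real.exp (21 / 10) / 10) ^ K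
          ≤ (Real.exp 1 / 5) * (Real.exp (21 / 10) / 10) := by gcongr
        _ = Real.exp (31 / 10) / 50 := by
            have : Real.exp (31 / 10 : ℝ) = Real.exp 1 * Real.exp (21 / 10) := by
              rw [← Real.exp_add]; norm_num
            rw [this]; ring
        _ ≤ 1 / 2 := by have := exp31; linarith
    have e7 : Real.exp (-(11 / 10 * (K : ℝ))) * Real.exp (11 / 10 * K) = 1 := by
      rw [← Real.exp_add]; simp
    have e8 : 0 < Real.exp (11 / 10 * (K : ℝ)) := Real.exp_pos _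
    have e9 : (1 / 10) ^ (K + 1) * Real.exp (K + 1) * 2 * Real.exp (11 / 10 * K) ≤
        Real.exp (-(11 / 10 * (K : ℝ))) / 2 * Real.exp (11 / 10 * K) := by
      calc _ ≤ 1 / 2 := e3
        _ = _ := by rw [div_mul_eq_mul_div, e7]
    exact le_of_mul_le_mul_right e9 e8
  calc ‖z‖ ^ (K + 1) / ((K + 1).factorial : ℝ) * 2
      ≤ (1 / 10) ^ (K + 1) * Real.exp (K + 1) * 2 := by gcongr
    _ ≤ Real.exp (-(K : ℝ)) / 2 * Real.exp (-((K : ℝ) / 10)) := h8
    _ ≤ _ := by gcongr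

/-- lower bound for the truncated exponential -/
lemma ex_ge {K : ℕ} {z : ℂ} (hz : ‖z‖ ≤ (K : ℝ) / 10) :
    (1 - Real.exp (-(K : ℝ)) / 2) * Real.exp z.re ≤ ‖ex K z‖ := by
  have h := t_EX K z hz
  have h1 : ‖Complex.exp z‖ ≤ ‖ex K z‖ + ‖ex K z - Complex.exp z‖ := by
    have := norm_sub_norm_le (Complex.exp z) (ex K z)
    rw [norm_sub_rev] at this
    linarith
  rw [Complex.norm_exp] at h h1
  linarith

/-- upper bound for the truncated exponential -/
lemma ex_le {K : ℕ} {z : ℂ} (hz : ‖z‖ ≤ (K : ℝ) / 10) :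
    ‖ex K z‖ ≤ (1 + Real.exp (-(K : ℝ)) / 2) * Real.exp z.re := by
  have h := t_EX K z hz
  have h1 : ‖ex K z‖ ≤ ‖Complex.exp z‖ + ‖ex K z - Complex.exp z‖ := by
    have := norm_sub_norm_le (ex K z) (Complex.exp z)
    linarith
  rw [Complex.norm_exp] at h h1
  linarith

theorem t_PW : P_PW := by
  intro K k w hK hk0 hk1
  have hd0 : 0 < Real.exp (-(K : ℝ)) := Real.exp_pos _
  have hd1 : Real.exp (-(K : ℝ)) ≤ 1 := Real.exp_le_one_iff.mpr (by simp)
  by_cases hw : ‖w‖ ≤ (K : ℝ) / 10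
  · have n1 : ‖((k - 1 : ℝ) : ℂ) * w‖ ≤ (K : ℝ) / 10 := by
      rw [norm_mul, Complex.norm_real, Real.norm_eq_abs]
      have : |k - 1| ≤ 1 := abs_le.mpr ⟨by linarith, by linarith⟩
      calc |k - 1| * ‖w‖ ≤ 1 * ‖w‖ := by gcongr
        _ ≤ _ := by linarith
    have n2 : ‖((k : ℝ) : ℂ) * w‖ ≤ (K : ℝ) / 10 := by
      rw [norm_mul, Complex.norm_real, Real.norm_eq_abs]
      have : |k| ≤ 1 := abs_le.mpr ⟨by linarith, by linarith⟩
      calc |k| * ‖w‖ ≤ 1 * ‖w‖ := by gcongr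
        _ ≤ _ := by linarith
    have g1 := ex_ge n1
    have g2 := ex_ge n2
    rw [Complex.re_ofReal_mul] at g1 g2
    set d := 1 - Real.exp (-(K : ℝ)) / 2 with hd
    have hdpos : 0 < d := by rw [hd]; linarith
    have m1 : (d * Real.exp ((k - 1) * w.re)) ^ 2 ≤ ‖ex K (((k - 1 : ℝ) : ℂ) * w)‖ ^ 2 + ‖hh K w‖ ^ 2 := by
      have : (d * Real.exp ((k - 1) * w.re)) ^ 2 ≤ ‖ex K (((k - 1 : ℝ) : ℂ) * w)‖ ^ 2 :=
        pow_le_pow_left₀ (by positivity) g1 2
      have := sq_nonneg ‖hh K w‖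
      linarith
    have m2 : (d * Real.exp (k * w.re)) ^ 2 ≤ ‖ex K (((k : ℝ) : ℂ) * w)‖ ^ 2 + ‖hh K w‖ ^ 2 := by
      have : (d * Real.exp (k * w.re)) ^ 2 ≤ ‖ex K (((k : ℝ) : ℂ) * w)‖ ^ 2 :=
        pow_le_pow_left₀ (by positivity) g2 2
      have := sq_nonneg ‖hh K w‖
      linarith
    have m3 : ((d * Real.exp ((k - 1) * w.re)) ^ 2) ^ k * ((d * Real.exp (k * w.re)) ^ 2) ^ (1 - k) ≤
        (‖ex K (((k - 1 : ℝ) : ℂ) * w)‖ ^ 2 + ‖hh K w‖ ^ 2) ^ k *
        (‖ex K (((k : ℝ) : ℂ) * w)‖ ^ 2 + ‖hh K w‖ ^ 2) ^ (1 - k) := by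
      have p1 := Real.rpow_le_rpow (by positivity) m1 hk0
      have p2 := Real.rpow_le_rpow (by positivity) m2 (show 0 ≤ 1 - k by linarith)
      exact mul_le_mul p1 p2 (by positivity) (by positivity)
    refine le_trans ?_ m3
    have m4 : ((d * Real.exp ((k - 1) * w.re)) ^ 2) ^ k * ((d * Real.exp (k * w.re)) ^ 2) ^ (1 - k) = d ^ 2 := by
      have q1 : (d * Real.exp ((k - 1) * w.re)) ^ 2 = Real.exp (2 * Real.log d + 2 * ((k - 1) * w.re)) := by
        rw [Real.exp_add, mul_pow, two_mul, Real.exp_add, Real.exp_log hdpos, two_mul ((k - 1) * w.re),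
          Real.exp_add]; ring
      have q2 : (d * Real.exp (k * w.re)) ^ 2 = Real.exp (2 * Real.log d + 2 * (k * w.re)) := by
        rw [Real.exp_add, mul_pow, two_mul, Real.exp_add, Real.exp_log hdpos, two_mul (k * w.re),
          Real.exp_add]; ring
      rw [q1, q2, ← Real.exp_mul, ← Real.exp_mul, ← Real.exp_add]
      have q3 : (2 * Real.log d + 2 * ((k - 1) * w.re)) * k + (2 * Real.log d + 2 * (k * w.re)) * (1 - k) =
          2 * Real.log d := by ring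
      rw [q3, two_mul, Real.exp_add, Real.exp_log hdpos]; ring
    rw [m4, hd]
    nlinarith [sq_nonneg (Real.exp (-(K : ℝ)))]
  · push Not at hw
    have hKpos : (0 : ℝ) < K := by exact_mod_cast hK
    have h1 : 1 ≤ ‖hh K w‖ := by
      rw [hh, norm_pow, norm_div, norm_mul]
      apply one_le_pow₀
      rw [Complex.norm_natCast, one_le_div hKpos]
      have : ‖(10 : ℂ)‖ = 10 := by norm_num
      rw [this]
      linarith
    have h2 : 1 ≤ ‖hh K w‖ ^ 2 := one_le_pow₀ h1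
    have b1 : 1 ≤ ‖ex K (((k - 1 : ℝ) : ℂ) * w)‖ ^ 2 + ‖hh K w‖ ^ 2 := by
      have := sq_nonneg ‖ex K (((k - 1 : ℝ) : ℂ) * w)‖
      linarith
    have b2 : 1 ≤ ‖ex K (((k : ℝ) : ℂ) * w)‖ ^ 2 + ‖hh K w‖ ^ 2 := by
      have := sq_nonneg ‖ex K (((k : ℝ) : ℂ) * w)‖
      linarith
    have c1 := Real.one_le_rpow b1 hk0
    have c2 := Real.one_le_rpow b2 (show 0 ≤ 1 - k by linarith)
    have := one_le_mul_of_one_le_of_one_le c1 c2
    linarith

end Pool.Agent.Q75.KZ
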