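import Pool.Agent.Q276.KZ.Stm

set_option autoImplicit false

namespace Pool.Agent.Q75.KZ

open MeasureTheory Filter Finset
open Pool.Agent.Q276.KZ Pool.Agent.Q276.CD

/-- the smooth part -/
noncomputable def smp (N n : ℕ) : ℕ := ∏ p ∈ n.primeFactors.filter (fun p => p < N), p ^ n.factorization p

/-- the rough part -/
noncomputable def rop (N n : ℕ) : ℕ := ∏ p ∈ n.primeFactors.filter (fun p => ¬ p < N), p ^ n.factorization p

lemma smp_mul_rop {N n : ℕ} (hn : n ≠ 0) : smp N n * rop N n = n := by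
  unfold smp rop
  rw [Finset.prod_filter_mul_prod_filter_not]
  exact Nat.prod_factorization_pow_eq_self hn

lemma smp_prime {N n p : ℕ} (hp : p.Prime) (hd : p ∣ smp N n) : p < N := by
  unfold smp at hd
  obtain ⟨q, hq, hq2⟩ := (Prime.dvd_finset_prod_iff hp.prime _).mp hd
  rw [Finset.mem_filter, Nat.mem_primeFactors] at hq
  have := (Nat.prime_dvd_prime_iff_eq hp hq.1.1).mp (hp.dvd_of_dvd_pow hq2)
  rw [this]; exact hq.2

lemma rop_prime {N n p : ℕ} (hp : p.Prime) (hd : p ∣ rop N n) : N ≤ p := by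
  unfold rop at hd
  obtain ⟨q, hq, hq2⟩ := (Prime.dvd_finset_prod_iff hp.prime _).mp hd
  rw [Finset.mem_filter, Nat.mem_primeFactors] at hq
  have := (Nat.prime_dvd_prime_iff_eq hp hq.1.1).mp (hp.dvd_of_dvd_pow hq2)
  rw [this]; omega

lemma smp_mem {N n : ℕ} (hn : n ≠ 0) : smp N n ∈ Nat.smoothNumbers N := by
  rw [sm_iff]
  refine ⟨fun h => ?_, fun p hp hd => smp_prime hp hd⟩
  have := smp_mul_rop (N := N) hn
  rw [h, zero_mul] at this
  exact hn this.symm

lemma rop_ne {N n : ℕ} (hn : n ≠ 0) : rop N n ≠ 0 := by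
  intro h
  have := smp_mul_rop (N := N) hn
  rw [h, mul_zero] at this
  exact hn this.symm

lemma rs_core (N Y : ℕ) (δ : ℝ) (G : ℕ → ℝ) (hδ : 0 ≤ δ) (hG : ∀ n, 0 ≤ G n) (hs : Sb N G)
    (hm : ∀ m r : ℕ, m ∈ Nat.smoothNumbers N → r ≠ 0 → (∀ p : ℕ, p.Prime → p ∣ r → N ≤ p) → G (m * r) = G m)
    (T R : Finset ℕ) (hT : ∀ n ∈ T, n ≠ 0) (hR : ∀ n ∈ T, rop N n ∈ R) :
    ∑ n ∈ T, G n * (n : ℝ) ^ (-(1 + δ)) ≤ SS N G * ∑ r ∈ R, (r : ℝ) ^ (-(1 + δ)) := by
  have h1 : ∀ n ∈ T, G n * (n : ℝ) ^ (-(1 + δ)) ≤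
      sf N G (smp N n) * ((rop N n : ℕ) : ℝ) ^ (-(1 + δ)) := by
    intro n hn
    have hn0 := hT n hn
    have e := smp_mul_rop (N := N) hn0
    have hmem := smp_mem (N := N) hn0
    have hm0 : smp N n ≠ 0 := (sm_iff.mp hmem).1
    have eG : G n = G (smp N n) := by
      conv_lhs => rw [← e]
      exact hm _ _ hmem (rop_ne hn0) (fun p hp hd => rop_prime hp hd)
    have en : (n : ℝ) ^ (-(1 + δ)) = ((smp N n : ℕ) : ℝ) ^ (-(1 + δ)) * ((rop N n : ℕ) : ℝ) ^ (-(1 + δ)) := by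
      conv_lhs => rw [← e]
      rw [Nat.cast_mul, Real.mul_rpow (Nat.cast_nonneg _) (Nat.cast_nonneg _)]
    rw [eG, en, ← mul_assoc]
    apply mul_le_mul_of_nonneg_right _ (Real.rpow_nonneg (Nat.cast_nonneg _) _)
    have hsf : sf N G (smp N n) = G (smp N n) / (smp N n : ℕ) := by
      unfold sf
      rw [Set.indicator_of_mem hmem]
    rw [hsf, div_eq_mul_inv]
    apply mul_le_mul_of_nonneg_left _ (hG _)
    have h1m : (1 : ℝ) ≤ ((smp N n : ℕ) : ℝ) := by exact_mod_cast Nat.one_le_iff_ne_zero.mpr hm0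
    calc ((smp N n : ℕ) : ℝ) ^ (-(1 + δ)) ≤ ((smp N n : ℕ) : ℝ) ^ (-1 : ℝ) :=
          Real.rpow_le_rpow_of_exponent_le h1m (by linarith)
      _ = _ := Real.rpow_neg_one _
  have hsf0 : ∀ m, 0 ≤ sf N G m := fun m => sf_nonneg (fun n _ => hG n) m
  calc ∑ n ∈ T, G n * (n : ℝ) ^ (-(1 + δ))
      ≤ ∑ n ∈ T, sf N G (smp N n) * ((rop N n : ℕ) : ℝ) ^ (-(1 + δ)) := sum_le_sum h1
    _ = ∑ x ∈ T.image (fun n => (smp N n, rop N n)), sf N G x.1 * ((x.2 : ℕ) : ℝ) ^ (-(1 + δ)) := by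
        rw [sum_image]
        intro a ha b hb hab
        simp only [Prod.mk.injEq] at hab
        rw [← smp_mul_rop (N := N) (hT a ha), ← smp_mul_rop (N := N) (hT b hb), hab.1, hab.2]
    _ ≤ ∑ x ∈ (T.image (smp N)) ×ˢ R, sf N G x.1 * ((x.2 : ℕ) : ℝ) ^ (-(1 + δ)) := by
        apply sum_le_sum_of_subset_of_nonneg
        · intro x hx
          obtain ⟨n, hn, rfl⟩ := mem_image.mp hx
          exact mem_product.mpr ⟨mem_image_of_mem _ hn, hR n hn⟩
        · intro x _ _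
          exact mul_nonneg (hsf0 _) (Real.rpow_nonneg (Nat.cast_nonneg _) _)
    _ = (∑ m ∈ T.image (smp N), sf N G m) * ∑ r ∈ R, (r : ℝ) ^ (-(1 + δ)) := by
        rw [sum_mul_sum, sum_product]
    _ ≤ _ := by
        apply mul_le_mul_of_nonneg_right
        · exact Summable.sum_le_tsum _ (fun m _ => hsf0 m) hs
        · exact sum_nonneg fun r _ => Real.rpow_nonneg (Nat.cast_nonneg _) _

theorem t_RS : P_RS := by
  classical
  intro N Y δ G hδ hG hs hm
  constructor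
  · apply rs_core N Y δ G hδ hG hs hm
    · intro n hn
      rw [mem_Icc] at hn; omega
    · intro n hn
      rw [mem_Icc] at hn
      have hn0 : n ≠ 0 := by omega
      unfold rgh
      refine Finset.mem_filter.mpr ⟨Finset.mem_Icc.mpr ⟨Nat.one_le_iff_ne_zero.mpr (rop_ne hn0), ?_⟩,
        fun p hp hd => rop_prime hp hd⟩
      have : rop N n ∣ n := Dvd.intro_left _ (smp_mul_rop hn0)
      exact (Nat.le_of_dvd (by omega) this).trans hn.2
  · apply rs_core N Y δ G hδ hG hs hm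
    · intro n hn
      unfold nsm at hn
      rw [mem_filter, mem_Icc] at hn; omega
    · intro n hn
      unfold nsm at hn
      rw [mem_filter, mem_Icc] at hn
      have hn0 : n ≠ 0 := by omega
      unfold rgh
      have hd : rop N n ∣ n := Dvd.intro_left _ (smp_mul_rop hn0)
      refine Finset.mem_filter.mpr ⟨Finset.mem_Icc.mpr ⟨?_, (Nat.le_of_dvd (by omega) hd).trans hn.1.2⟩,
        fun p hp hd => rop_prime hp hd⟩
      have h0 := rop_ne (N := N) hn0
      have h1 : rop N n ≠ 1 := by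
        intro h
        have e := smp_mul_rop (N := N) hn0
        rw [h, mul_one] at e
        apply hn.2
        rw [← e]
        exact smp_mem hn0
      omega

end Pool.Agent.Q75.KZ
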