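import Pool.Agent.Q276.KZ.Stm

set_option autoImplicit false

namespace Pool.Agent.Q75.KZ

open MeasureTheory Filter Finset
open Pool.Agent.Q276.KZ Pool.Agent.Q276.CD

lemma memLp_cont {f : ℝ → ℝ} (hf : Continuous f) (p : ENNReal) :
    MemLp f p (volume.restrict (Set.Ioc (0:ℝ) 1)) := by
  obtain ⟨C, hC⟩ := isCompact_Icc.exists_bound_of_continuousOn (s := Set.Icc (0:ℝ) 1) hf.continuousOn
  refine MemLp.of_bound hf.aestronglyMeasurable C ?_
  refine (ae_restrict_iff' measurableSet_Ioc).mpr (ae_of_all _ fun u hu => ?_)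
  exact hC u ⟨hu.1.le, hu.2⟩

/-- Lyapunov's inequality -/
lemma lyapunov {f : ℝ → ℝ} (hf : Continuous f) (h0 : ∀ u, 0 ≤ f u) {a b θ : ℝ} (ha : 0 ≤ a) (hb : 0 ≤ b)
    (hθ0 : 0 < θ) (hθ1 : θ < 1) :
    ∫ u in (0:ℝ)..1, f u ^ (θ * a + (1 - θ) * b) ≤
      (∫ u in (0:ℝ)..1, f u ^ a) ^ θ * (∫ u in (0:ℝ)..1, f u ^ b) ^ (1 - θ) := by
  have h1θ : 0 < 1 - θ := by linarith
  rw [intervalIntegral.integral_of_le zero_le_one, intervalIntegral.integral_of_le zero_le_one,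
    intervalIntegral.integral_of_le zero_le_one]
  have hpq : Real.HolderConjugate (1 / θ) (1 / (1 - θ)) := by
    rw [Real.holderConjugate_iff]
    refine ⟨by rw [lt_div_iff₀ hθ0]; linarith, by simp⟩
  have c1 : Continuous fun u => f u ^ (θ * a) := hf.rpow_const fun u => Or.inr (by positivity)
  have c2 : Continuous fun u => f u ^ ((1 - θ) * b) := hf.rpow_const fun u => Or.inr (by positivity)
  have h := integral_mul_le_Lp_mul_Lq_of_nonneg (μ := volume.restrict (Set.Ioc (0:ℝ) 1)) hpq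
    (f := fun u => f u ^ (θ * a)) (g := fun u => f u ^ ((1 - θ) * b))
    (ae_of_all _ fun u => Real.rpow_nonneg (h0 u) _) (ae_of_all _ fun u => Real.rpow_nonneg (h0 u) _)
    (memLp_cont c1 _) (memLp_cont c2 _)
  have e1 : ∀ u, f u ^ (θ * a) * f u ^ ((1 - θ) * b) = f u ^ (θ * a + (1 - θ) * b) := by
    intro u
    rw [← Real.rpow_add_of_nonneg (h0 u) (by positivity) (by positivity)]
  have e2 : ∀ u, (f u ^ (θ * a)) ^ (1 / θ) = f u ^ a := by
    intro u
    rw [← Real.rpow_mul (h0 u)]; congr 1; field_simp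
  have e3 : ∀ u, (f u ^ ((1 - θ) * b)) ^ (1 / (1 - θ)) = f u ^ b := by
    intro u
    rw [← Real.rpow_mul (h0 u)]; congr 1; field_simp
  simp only [e1, e2, e3, one_div_one_div] at h
  exact h

lemma cont_zeta (x T : ℝ) : Continuous fun u : ℝ =>
    ‖riemannZeta (1 / 2 + (x : ℂ) * Complex.I + (u : ℂ) * (T : ℂ) * Complex.I)‖ := by
  apply Continuous.norm
  rw [continuous_iff_continuousAt]
  intro u
  have h1 : (1 / 2 + (x : ℂ) * Complex.I + (u : ℂ) * (T : ℂ) * Complex.I) ≠ 1 := by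
    intro h
    have := congrArg Complex.re h
    simp at this
  have h2 := (differentiableAt_riemannZeta h1).continuousAt
  have h3 : ContinuousAt (fun u : ℝ => (1 / 2 + (x : ℂ) * Complex.I + (u : ℂ) * (T : ℂ) * Complex.I)) u := by
    fun_prop
  exact ContinuousAt.comp (f := fun u : ℝ => (1 / 2 + (x : ℂ) * Complex.I + (u : ℂ) * (T : ℂ) * Complex.I))
    (g := riemannZeta) h2 h3

lemma core_TI {f : ℝ → ℝ} (hf : Continuous f) (h0 : ∀ u, 0 ≤ f u) {b1 β E η : ℝ} (hb1 : 0 < b1)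
    (hβ : 0 < β) (hβ1 : β < b1) (hE0 : 0 ≤ E) (hE : E ≤ 1 / 2) (hη0 : 0 ≤ η) (hη : η ≤ 1)
    (hl : 1 - E ≤ ∫ u in (0:ℝ)..1, f u ^ b1)
    (hu1 : ∫ u in (0:ℝ)..1, f u ^ b1 ≤ (1 + E) * Real.exp η)
    (hu2 : ∫ u in (0:ℝ)..1, f u ^ (2 * b1) ≤ (1 + E) * Real.exp η) :
    1 - 8 * E - 4 * η ≤ ∫ u in (0:ℝ)..1, f u ^ β ∧ ∫ u in (0:ℝ)..1, f u ^ β ≤ 1 + 3 * E + 2 * η := by
  have hexp : Real.exp η ≤ 1 + 2 * η := by
    have h := Real.exp_bound' hη0 hη (n := 2) (by norm_num)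
    norm_num [Finset.sum_range_succ] at h
    nlinarith
  have hexp1 : 1 ≤ Real.exp η := Real.one_le_exp hη0
  set u := (1 + E) * Real.exp η with hu
  have hu_ge : 1 ≤ u := by rw [hu]; nlinarith
  have hu_le : u ≤ 1 + 3 * E + 2 * η := by rw [hu]; nlinarith
  have hu_pos : 0 < u := by linarith
  have hA0 : ∀ c : ℝ, 0 ≤ ∫ t in (0:ℝ)..1, f t ^ c := fun c =>
    intervalIntegral.integral_nonneg zero_le_one fun t _ => Real.rpow_nonneg (h0 t) _
  constructor
  · -- lower bound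
    set θ := b1 / (2 * b1 - β) with hθ
    have hden : 0 < 2 * b1 - β := by linarith
    have hθ0 : 0 < θ := by rw [hθ]; positivity
    have hθ1 : θ < 1 := by rw [hθ, div_lt_one hden]; linarith
    have hly := lyapunov hf h0 (a := β) (b := 2 * b1) (θ := θ) hβ.le (by positivity) hθ0 hθ1
    have hc : θ * β + (1 - θ) * (2 * b1) = b1 := by
      have hθd : θ * (2 * b1 - β) = b1 := by rw [hθ]; exact div_mul_cancel₀ _ hden.ne'
      linear_combination -hθd
    rw [hc] at hly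
    have h2 : (∫ t in (0:ℝ)..1, f t ^ (2 * b1)) ^ (1 - θ) ≤ u := by
      calc _ ≤ u ^ (1 - θ) := Real.rpow_le_rpow (hA0 _) hu2 (by linarith)
        _ ≤ u ^ (1 : ℝ) := Real.rpow_le_rpow_of_exponent_le hu_ge (by linarith)
        _ = u := Real.rpow_one u
    have h3 : 1 - E ≤ (∫ t in (0:ℝ)..1, f t ^ β) ^ θ * u := by
      refine hl.trans (hly.trans ?_)
      exact mul_le_mul_of_nonneg_left h2 (Real.rpow_nonneg (hA0 _) _)
    set v := (1 - E) / u with hv
    have hv0 : 0 < v := by rw [hv]; apply div_pos _ hu_pos; linarith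
    have hv1 : v ≤ 1 := by rw [hv, div_le_one hu_pos]; linarith
    have h4 : v ≤ (∫ t in (0:ℝ)..1, f t ^ β) ^ θ := by
      rw [hv, div_le_iff₀ hu_pos]; exact h3
    have h5 : v ^ (1 / θ) ≤ ∫ t in (0:ℝ)..1, f t ^ β := by
      have := Real.rpow_le_rpow hv0.le h4 (show 0 ≤ 1 / θ by positivity)
      rwa [← Real.rpow_mul (hA0 _), mul_one_div_cancel hθ0.ne', Real.rpow_one] at this
    have h6 : v ^ (2 : ℝ) ≤ v ^ (1 / θ) := by
      apply Real.rpow_le_rpow_of_exponent_ge hv0 hv1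
      rw [hθ, one_div_div, div_le_iff₀ hb1]; linarith
    rw [Real.rpow_two] at h6
    have h7 : 1 - v ≤ u - 1 + E := by
      have : (1 - v) * u = u - 1 + E := by rw [hv]; field_simp; ring
      have h8 : 0 ≤ 1 - v := by linarith
      nlinarith
    nlinarith [sq_nonneg (v - 1)]
  · -- upper bound
    set θ := β / b1 with hθ
    have hθ0 : 0 < θ := by rw [hθ]; positivity
    have hθ1 : θ < 1 := by rw [hθ, div_lt_one hb1]; exact hβ1
    have hly := lyapunov hf h0 (a := b1) (b := 0) (θ := θ) hb1.le le_rfl hθ0 hθ1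
    have hc : θ * b1 + (1 - θ) * 0 = β := by rw [hθ]; field_simp; ring
    rw [hc] at hly
    have h1 : ∫ t in (0:ℝ)..1, f t ^ (0 : ℝ) = 1 := by simp
    rw [h1, Real.one_rpow, mul_one] at hly
    calc ∫ t in (0:ℝ)..1, f t ^ β ≤ (∫ t in (0:ℝ)..1, f t ^ b1) ^ θ := hly
      _ ≤ u ^ θ := Real.rpow_le_rpow (hA0 _) hu1 hθ0.le
      _ ≤ u ^ (1 : ℝ) := Real.rpow_le_rpow_of_exponent_le hu_ge hθ1.le
      _ = u := Real.rpow_one u
      _ ≤ _ := hu_le

theorem t_TI : P_TI := by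
  intro x C hC hyp
  set ε : ℝ := 1 / (16 * C + 6) with hε
  have hεpos : 0 < ε := by rw [hε]; positivity
  have hlogT : Tendsto Real.log atTop atTop := Real.tendsto_log_atTop
  have ev1 : ∀ᶠ L : ℝ in atTop, 2 + Real.log L ≤ ε * L ^ ((1:ℝ) / 42) := by
    have h1 : ∀ᶠ L : ℝ in atTop, 2 ≤ ε / 2 * L ^ ((1:ℝ) / 42) := by
      have : Tendsto (fun L : ℝ => ε / 2 * L ^ ((1:ℝ) / 42)) atTop atTop :=
        (tendsto_rpow_atTop (by norm_num)).const_mul_atTop (by positivity)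
      exact this.eventually_ge_atTop 2
    have h2 := (isLittleO_log_rpow_atTop (show (0:ℝ) < 1 / 42 by norm_num)).def (show 0 < ε / 2 by positivity)
    filter_upwards [h1, h2, eventually_ge_atTop (1:ℝ)] with L a b c
    rw [Real.norm_eq_abs, Real.norm_eq_abs, abs_of_nonneg (Real.log_nonneg c),
      abs_of_nonneg (by positivity)] at b
    linarith
  filter_upwards [hyp, hlogT.eventually ev1, hlogT.eventually_ge_atTop 1] with T hT hev hL1 β hβ0 hβ2
  set L := Real.log T with hL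
  have hLpos : 0 < L := by linarith
  have hlL : 0 ≤ Real.log L := Real.log_nonneg hL1
  set b1 : ℝ := L ^ (-(1 / 6) : ℝ) with hb1
  have hb1pos : 0 < b1 := by rw [hb1]; positivity
  have hb1le : b1 ≤ 1 := Real.rpow_le_one_of_one_le_of_nonpos hL1 (by norm_num)
  have hM1 : ∀ c : ℝ, 1 ≤ L ^ (c ^ 2 / 4) := fun c => Real.one_le_rpow hL1 (by positivity)
  have hL7 : 0 < L ^ (-(1 / 7) : ℝ) := by positivity
  by_cases hcase : b1 ≤ β
  · refine (hT β hcase hβ2).trans ?_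
    have := hM1 β
    nlinarith
  push Not at hcase
  set f : ℝ → ℝ := fun u => ‖riemannZeta (1 / 2 + (x : ℂ) * Complex.I + (u : ℂ) * (T : ℂ) * Complex.I)‖ with hf
  have hfc : Continuous f := cont_zeta x T
  have hf0 : ∀ u, 0 ≤ f u := fun u => norm_nonneg _
  set η : ℝ := L ^ (-(1 / 3) : ℝ) * Real.log L with hη
  set E : ℝ := 2 * C * b1 * Real.log (4 / b1) with hE
  have hlog4 : Real.log (4 / b1) = Real.log 4 + 1 / 6 * Real.log L := by
    rw [Real.log_div (by norm_num) hb1pos.ne', hb1, Real.log_rpow hLpos]; ring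
  have hlog4v : Real.log 4 ≤ 2 := by
    have : Real.log 4 = 2 * Real.log 2 := by
      rw [show (4:ℝ) = 2 ^ 2 by norm_num, Real.log_pow]; norm_num
    rw [this]
    have := Real.log_two_lt_d9; linarith
  have hlog40 : 0 ≤ Real.log 4 := Real.log_nonneg (by norm_num)
  have hlogb0 : 0 ≤ Real.log (4 / b1) := by rw [hlog4]; linarith
  have hlogb1 : Real.log (4 / b1) ≤ 2 + Real.log L := by rw [hlog4]; linarith
  have hE0 : 0 ≤ E := by rw [hE]; positivity
  have hη0 : 0 ≤ η := by rw [hη]; positivity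
  have hkey : b1 * (2 + Real.log L) ≤ ε * L ^ (-(1 / 7) : ℝ) := by
    have h1 : b1 * (2 + Real.log L) ≤ b1 * (ε * L ^ ((1:ℝ) / 42)) := mul_le_mul_of_nonneg_left hev hb1pos.le
    refine h1.trans (le_of_eq ?_)
    have : b1 * (ε * L ^ ((1:ℝ) / 42)) = ε * (L ^ (-(1 / 6) : ℝ) * L ^ ((1:ℝ) / 42)) := by rw [hb1]; ring
    rw [this, ← Real.rpow_add hLpos]
    norm_num
  have hL71 : L ^ (-(1 / 7) : ℝ) ≤ 1 := Real.rpow_le_one_of_one_le_of_nonpos hL1 (by norm_num)
  have hE1 : E ≤ 2 * C * (b1 * (2 + Real.log L)) := by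
    rw [hE]
    have := mul_le_mul_of_nonneg_left hlogb1 hb1pos.le
    calc 2 * C * b1 * Real.log (4 / b1) = 2 * C * (b1 * Real.log (4 / b1)) := by ring
      _ ≤ _ := by gcongr
  have hη1 : η ≤ b1 * (2 + Real.log L) := by
    rw [hη]
    have h1 : L ^ (-(1 / 3) : ℝ) ≤ b1 := by
      rw [hb1]; exact Real.rpow_le_rpow_of_exponent_le hL1 (by norm_num)
    calc L ^ (-(1 / 3) : ℝ) * Real.log L ≤ b1 * Real.log L := by gcongr
      _ ≤ _ := by gcongr; linarith
  have hεC : (16 * C + 6) * ε = 1 := by rw [hε]; field_simp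
  have hbL : 0 ≤ b1 * (2 + Real.log L) := by positivity
  have hq : b1 * (2 + Real.log L) ≤ ε := hkey.trans (by nlinarith)
  have htot : 8 * E + 6 * η ≤ L ^ (-(1 / 7) : ℝ) := by
    calc 8 * E + 6 * η ≤ (16 * C + 6) * (b1 * (2 + Real.log L)) := by nlinarith
      _ ≤ (16 * C + 6) * (ε * L ^ (-(1 / 7) : ℝ)) := by gcongr
      _ = L ^ (-(1 / 7) : ℝ) := by rw [← mul_assoc, hεC, one_mul]
  have hEhalf : E ≤ 1 / 2 := by linarith
  have hηone : η ≤ 1 := by linarith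
  -- bounds for L ^ (c^2/4)
  have hMle : ∀ c : ℝ, 0 ≤ c → c ≤ 2 * b1 → L ^ (c ^ 2 / 4) ≤ Real.exp η := by
    intro c hc0 hc
    rw [Real.rpow_def_of_pos hLpos, Real.exp_le_exp, hη]
    have h1 : c ^ 2 / 4 ≤ L ^ (-(1 / 3) : ℝ) := by
      have h2 : L ^ (-(1 / 3) : ℝ) = b1 ^ 2 := by
        rw [hb1, ← Real.rpow_natCast, ← Real.rpow_mul hLpos.le]; norm_num
      rw [h2]
      nlinarith
    calc Real.log L * (c ^ 2 / 4) ≤ Real.log L * L ^ (-(1 / 3) : ℝ) := mul_le_mul_of_nonneg_left h1 hlL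
      _ = _ := by ring
  have hb1T := hT b1 le_rfl (by linarith)
  have hb2T := hT (2 * b1) (by linarith) (by linarith)
  have hlog42 : Real.log (4 / (2 * b1)) ≤ Real.log (4 / b1) := by
    apply Real.log_le_log (by positivity)
    apply div_le_div_of_nonneg_left (by norm_num) hb1pos (by linarith)
  have er1 : C * b1 * Real.log (4 / b1) ≤ E := by
    rw [hE]
    have : 0 ≤ C * b1 * Real.log (4 / b1) := by positivity
    linarith
  have er2 : C * (2 * b1) * Real.log (4 / (2 * b1)) ≤ E := by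
    rw [hE]
    have : C * (2 * b1) * Real.log (4 / (2 * b1)) ≤ C * (2 * b1) * Real.log (4 / b1) := by gcongr
    linarith
  have hl : 1 - E ≤ ∫ u in (0:ℝ)..1, f u ^ b1 := by
    have h1 := (abs_le.mp hb1T).1
    have h2 := hM1 b1
    nlinarith
  have hu1 : ∫ u in (0:ℝ)..1, f u ^ b1 ≤ (1 + E) * Real.exp η := by
    have h1 := (abs_le.mp hb1T).2
    have h2 := hM1 b1
    have h3 := hMle b1 hb1pos.le (by linarith)
    calc ∫ u in (0:ℝ)..1, f u ^ b1 ≤ (1 + E) * L ^ (b1 ^ 2 / 4) := by nlinarith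
      _ ≤ _ := by gcongr
  have hu2 : ∫ u in (0:ℝ)..1, f u ^ (2 * b1) ≤ (1 + E) * Real.exp η := by
    have h1 := (abs_le.mp hb2T).2
    have h2 := hM1 (2 * b1)
    have h3 := hMle (2 * b1) (by positivity) le_rfl
    calc ∫ u in (0:ℝ)..1, f u ^ (2 * b1) ≤ (1 + E) * L ^ ((2 * b1) ^ 2 / 4) := by nlinarith
      _ ≤ _ := by gcongr
  obtain ⟨r1, r2⟩ := core_TI hfc hf0 hb1pos hβ0 hcase hE0 hEhalf hη0 hηone hl hu1 hu2
  have m1 := hM1 β
  have m2 := hMle β hβ0.le (by linarith)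
  have hexp : Real.exp η ≤ 1 + 2 * η := by
    have h := Real.exp_bound' hη0 hηone (n := 2) (by norm_num)
    norm_num [Finset.sum_range_succ] at h
    nlinarith
  have hlogβ : 0 ≤ C * β * Real.log (4 / β) := by
    have : 0 ≤ Real.log (4 / β) := Real.log_nonneg (by rw [le_div_iff₀ hβ0]; linarith)
    positivity
  have hfin : |(∫ u in (0:ℝ)..1, f u ^ β) - L ^ (β ^ 2 / 4)| ≤ L ^ (-(1 / 7) : ℝ) := by
    rw [abs_le]
    constructor <;> linarith
  refine hfin.trans ?_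
  nlinarith

end Pool.Agent.Q75.KZ
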