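import Pool.Agent.Q75.KZ.EX

set_option autoImplicit false

namespace Pool.Agent.Q75.KZ

open MeasureTheory Filter Finset
open Pool.Agent.Q276.KZ Pool.Agent.Q276.CD

lemma prod_lower (n : ℕ) (δ : ℕ → ℝ) (h0 : ∀ j, 0 ≤ δ j) (h1 : ∀ j, δ j ≤ 1) :
    1 - ∑ j ∈ range n, δ j / 2 ≤ ∏ j ∈ range n, (1 - δ j / 2) := by
  induction n with
  | zero => simp
  | succ n ih =>
    rw [sum_range_succ, prod_range_succ]
    have hs : 0 ≤ ∑ j ∈ range n, δ j / 2 := sum_nonneg fun j _ => by have := h0 j; linarith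
    have hp : ∏ j ∈ range n, (1 - δ j / 2) ≤ 1 := by
      apply prod_le_one
      · intro j _; have := h1 j; linarith
      · intro j _; have := h0 j; linarith
    have a := h0 n
    have b := h1 n
    nlinarith

/-- two-sided bound for the product of truncated exponentials -/
lemma prod_ex (J : ℕ) (K : ℕ → ℕ) (P : ℕ → ℂ) (c : ℝ) (hc : |c| ≤ 1)
    (hP : ∀ j ≤ J, ‖P j‖ ≤ (K j : ℝ) / 10) :
    (1 - ∑ j ∈ range (J + 1), Real.exp (-(K j : ℝ)) / 2) * Real.exp (c * ∑ j ∈ range (J + 1), (P j).re) ≤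
      ‖∏ j ∈ range (J + 1), ex (K j) ((c : ℂ) * P j)‖ ∧
    ‖∏ j ∈ range (J + 1), ex (K j) ((c : ℂ) * P j)‖ ≤
      Real.exp (∑ j ∈ range (J + 1), Real.exp (-(K j : ℝ)) / 2) *
        Real.exp (c * ∑ j ∈ range (J + 1), (P j).re) := by
  have hn : ∀ j ∈ range (J + 1), ‖(c : ℂ) * P j‖ ≤ (K j : ℝ) / 10 := by
    intro j hj
    rw [norm_mul, Complex.norm_real, Real.norm_eq_abs]
    have h1 := hP j (by simpa [Nat.lt_succ_iff] using hj)
    calc |c| * ‖P j‖ ≤ 1 * ‖P j‖ := by gcongr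
      _ ≤ _ := by linarith
  have hx : Real.exp (c * ∑ j ∈ range (J + 1), (P j).re) = ∏ j ∈ range (J + 1), Real.exp (c * (P j).re) := by
    rw [mul_sum, Real.exp_sum]
  rw [norm_prod, hx]
  constructor
  · calc (1 - ∑ j ∈ range (J + 1), Real.exp (-(K j : ℝ)) / 2) * ∏ j ∈ range (J + 1), Real.exp (c * (P j).re)
        ≤ (∏ j ∈ range (J + 1), (1 - Real.exp (-(K j : ℝ)) / 2)) *
          ∏ j ∈ range (J + 1), Real.exp (c * (P j).re) := by
          apply mul_le_mul_of_nonneg_right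
          · exact prod_lower _ _ (fun j => (Real.exp_pos _).le) (fun j => Real.exp_le_one_iff.mpr (by simp))
          · exact prod_nonneg fun j _ => (Real.exp_pos _).le
      _ = ∏ j ∈ range (J + 1), ((1 - Real.exp (-(K j : ℝ)) / 2) * Real.exp (c * (P j).re)) := by
          rw [prod_mul_distrib]
      _ ≤ _ := by
          apply Finset.prod_le_prod
          · intro j _
            have : Real.exp (-(K j : ℝ)) ≤ 1 := Real.exp_le_one_iff.mpr (by simp)
            have : 0 < Real.exp (c * (P j).re) := Real.exp_pos _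
            apply mul_nonneg _ this.le
            linarith
          · intro j hj
            have := ex_ge (hn j hj)
            rwa [Complex.re_ofReal_mul] at this
  · calc ∏ j ∈ range (J + 1), ‖ex (K j) ((c : ℂ) * P j)‖
        ≤ ∏ j ∈ range (J + 1), (Real.exp (Real.exp (-(K j : ℝ)) / 2) * Real.exp (c * (P j).re)) := by
          apply Finset.prod_le_prod
          · intro j _; positivity
          · intro j hj
            have := ex_le (hn j hj)
            rw [Complex.re_ofReal_mul] at this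
            refine this.trans ?_
            apply mul_le_mul_of_nonneg_right _ (Real.exp_pos _).le
            have := Real.add_one_le_exp (Real.exp (-(K j : ℝ)) / 2)
            linarith
      _ = _ := by rw [prod_mul_distrib, Real.exp_sum]

theorem t_PL : P_PL := by
  refine ⟨5, by norm_num, ?_⟩
  intro k J K P Z M hk0 hk1 hsum hP hM hZ
  set A := ∏ j ∈ range (J + 1), ex (K j) ((k : ℂ) * P j) with hA
  set B := ∏ j ∈ range (J + 1), ex (K j) (((k - 1 : ℝ) : ℂ) * P j) with hB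
  set x := ∑ j ∈ range (J + 1), (P j).re with hx
  have hs : ∑ j ∈ range (J + 1), Real.exp (-(K j : ℝ)) / 2 ≤ k ^ 2 / 4 := by
    rw [← sum_div]; linarith
  have hk2 : k ^ 2 ≤ 1 := by nlinarith
  have hk2' : 0 < k ^ 2 := by positivity
  obtain ⟨a1, a2⟩ := prod_ex J K P k (abs_le.mpr ⟨by linarith, hk1⟩) hP
  obtain ⟨b1, b2⟩ := prod_ex J K P (k - 1) (abs_le.mpr ⟨by linarith, by linarith⟩) hP
  rw [← hA, ← hx] at a1 a2
  rw [← hB, ← hx] at b1 b2
  have hex : 0 < Real.exp (k * x) := Real.exp_pos _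
  have hex' : 0 < Real.exp ((k - 1) * x) := Real.exp_pos _
  have A1 : 3 / 4 * Real.exp (k * x) ≤ ‖A‖ := by
    refine le_trans ?_ a1
    apply mul_le_mul_of_nonneg_right _ hex.le
    linarith
  have hexs : Real.exp (∑ j ∈ range (J + 1), Real.exp (-(K j : ℝ)) / 2) ≤ Real.exp (k ^ 2 / 4) :=
    Real.exp_le_exp.mpr hs
  have A2 : ‖A‖ ≤ Real.exp (k ^ 2 / 4) * Real.exp (k * x) :=
    a2.trans (mul_le_mul_of_nonneg_right hexs hex.le)
  have he43 : Real.exp (k ^ 2 / 4) ≤ 4 / 3 := by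
    have h1 : Real.exp (k ^ 2 / 4) ≤ Real.exp (1 / 4) := Real.exp_le_exp.mpr (by linarith)
    have h2 := Real.one_sub_le_exp_neg (1 / 4)
    have h3 : Real.exp (-(1 / 4 : ℝ)) * Real.exp (1 / 4) = 1 := by rw [← Real.exp_add]; simp
    have h4 : 0 < Real.exp (1 / 4 : ℝ) := Real.exp_pos _
    nlinarith
  have B2 : ‖B‖ ≤ 4 / 3 * Real.exp ((k - 1) * x) :=
    b2.trans (mul_le_mul_of_nonneg_right (hexs.trans he43) hex'.le)
  have hApos : 0 < ‖A‖ := lt_of_lt_of_le (by positivity) A1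
  -- lower bound of Z
  have z1 : ‖A‖ / 2 ≤ ‖Z * M * B‖ := by
    have : ‖A‖ ≤ ‖Z * M * B‖ + ‖Z * M * B - A‖ := by
      have := norm_sub_norm_le A (Z * M * B)
      rw [norm_sub_rev] at this
      linarith
    have h2 : ‖Z * M * B - A‖ ≤ 1 / 2 * ‖A‖ := hZ
    linarith
  have z2 : ‖A‖ / 2 ≤ ‖Z‖ * (1 / k) * (4 / 3 * Real.exp ((k - 1) * x)) := by
    refine z1.trans ?_
    rw [norm_mul, norm_mul]
    gcongr
  have z3 : k / 4 * Real.exp x ≤ ‖Z‖ := by
    have e1 : Real.exp (k * x) = Real.exp x * Real.exp ((k - 1) * x) := by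
      rw [← Real.exp_add]; ring_nf
    have h1 : 3 / 8 * (Real.exp x * Real.exp ((k - 1) * x)) ≤
        ‖Z‖ * (1 / k) * (4 / 3 * Real.exp ((k - 1) * x)) := by
      rw [← e1]; linarith
    have h2 : (3 / 8 * Real.exp x) * Real.exp ((k - 1) * x) ≤
        (‖Z‖ * (1 / k) * (4 / 3)) * Real.exp ((k - 1) * x) := by
      calc _ = 3 / 8 * (Real.exp x * Real.exp ((k - 1) * x)) := by ring
        _ ≤ _ := h1
        _ = _ := by ring
    have h3 := le_of_mul_le_mul_right h2 hex'
    have h4 : k * (3 / 8 * Real.exp x) ≤ k * (‖Z‖ * (1 / k) * (4 / 3)) :=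
      mul_le_mul_of_nonneg_left h3 hk0.le
    have h5 : k * (‖Z‖ * (1 / k) * (4 / 3)) = 4 / 3 * ‖Z‖ := by field_simp
    rw [h5] at h4
    have := Real.exp_pos x
    nlinarith [mul_pos hk0 this]
  have hZpow : Real.exp (-(2 * k * Real.log (4 / k))) * Real.exp (2 * k * x) ≤ ‖Z‖ ^ (2 * k) := by
    have h1 : (k / 4 * Real.exp x) ^ (2 * k) ≤ ‖Z‖ ^ (2 * k) :=
      Real.rpow_le_rpow (by positivity) z3 (by positivity)
    refine le_trans (le_of_eq ?_) h1
    rw [Real.rpow_def_of_pos (by positivity), Real.log_mul (by positivity) (by positivity),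
      Real.log_exp, ← Real.exp_add]
    congr 1
    have : Real.log (4 / k) = -Real.log (k / 4) := by
      rw [← Real.log_inv, inv_div]
    rw [this]; ring
  have hlog2 : 0 ≤ Real.log (2 / k) := Real.log_nonneg (by rw [le_div_iff₀ hk0]; linarith)
  have hlog2' : Real.log 2 ≤ Real.log (2 / k) := by
    apply Real.log_le_log (by norm_num)
    rw [le_div_iff₀ hk0]; nlinarith
  by_cases hneg : 1 - 5 * k * Real.log (2 / k) ≤ 0
  · have : (1 - 5 * k * Real.log (2 / k)) * ‖A‖ ^ 2 ≤ 0 :=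
      mul_nonpos_of_nonpos_of_nonneg hneg (by positivity)
    exact this.trans (by positivity)
  push Not at hneg
  have hA2 : ‖A‖ ^ 2 ≤ Real.exp (k ^ 2 / 2) * Real.exp (2 * k * x) := by
    have h1 : ‖A‖ ^ 2 ≤ (Real.exp (k ^ 2 / 4) * Real.exp (k * x)) ^ 2 :=
      pow_le_pow_left₀ (norm_nonneg _) A2 2
    refine h1.trans (le_of_eq ?_)
    rw [mul_pow, ← Real.exp_nat_mul, ← Real.exp_nat_mul]
    congr 2
    · push_cast; ring
    · push_cast; ring
  have hle : 1 - 5 * k * Real.log (2 / k) ≤ Real.exp (-(5 * k * Real.log (2 / k))) :=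
    Real.one_sub_le_exp_neg _
  have hlog4 : Real.log (4 / k) = Real.log 2 + Real.log (2 / k) := by
    rw [← Real.log_mul (by norm_num) (by positivity)]; congr 1; ring
  have hl2 : (1 : ℝ) / 2 ≤ Real.log 2 := by
    have := Real.log_two_gt_d9; linarith
  have hexp : -(5 * k * Real.log (2 / k)) + k ^ 2 / 2 ≤ -(2 * k * Real.log (4 / k)) := by
    rw [hlog4]
    have h1 : k * (k / 2) ≤ k * Real.log (2 / k) := by
      apply mul_le_mul_of_nonneg_left _ hk0.le
      linarith
    have h2 : k * Real.log 2 ≤ k * Real.log (2 / k) := mul_le_mul_of_nonneg_left hlog2' hk0.le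
    nlinarith
  calc (1 - 5 * k * Real.log (2 / k)) * ‖A‖ ^ 2
      ≤ Real.exp (-(5 * k * Real.log (2 / k))) * (Real.exp (k ^ 2 / 2) * Real.exp (2 * k * x)) :=
        mul_le_mul hle hA2 (by positivity) (by positivity)
    _ = Real.exp (-(5 * k * Real.log (2 / k)) + k ^ 2 / 2) * Real.exp (2 * k * x) := by
        rw [Real.exp_add]; ring
    _ ≤ Real.exp (-(2 * k * Real.log (4 / k))) * Real.exp (2 * k * x) :=
        mul_le_mul_of_nonneg_right (Real.exp_le_exp.mpr hexp) (Real.exp_pos _).le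
    _ ≤ _ := hZpow

end Pool.Agent.Q75.KZ
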